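import Pool.Agent.helper59.FI.SpecB

/-! EQO: the block idempotents of `H` and of `C_H(y)`, relative to `L`. -/

set_option autoImplicit false

namespace Pool.Agent.FI

open Pool.Agent.helper58.DC Pool.Agent.DI Pool.Agent.GR Pool.Agent.OB

theorem EQO_mem {G : Type} [Group G] (H : Subgroup G) (y x : G) :
    x ∈ Cz H y ↔ x ∈ H ∧ y * x = x * y := by
  unfold Cz
  rw [Subgroup.mem_inf, Subgroup.mem_centralizer_iff]
  simp

theorem EQO_alg {A : Type} [AddCommGroup A] (m : A → A → A)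
    (hass : ∀ a b c, m (m a b) c = m a (m b c))
    (hadd : ∀ a b c, m (a + b) c = m a c + m b c) (hadd' : ∀ a b c, m a (b + c) = m a b + m a c)
    (hsub : ∀ a b c, m (a - b) c = m a c - m b c) (hsub' : ∀ a b c, m a (b - c) = m a b - m a c)
    (e f u : A) (he : m e e = e + u) (hf : m f f = f) (hc : m e f = m f e) (hu : m u e = m e u)
    (hu' : m u f = m f u) :
    m (m (e - f) (e - f)) (e - f) - (e - f) = u + m e u - (m f u + m f u + m f u) := by
  have h1 : m (m f e) e = m f e + m f u := by rw [hass, he, hadd']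
  have h2 : m (m f e) f = m f e := by rw [← hc, hass, hf]
  have h3 : m (e - f) (e - f) = e + u - m f e - (m f e - f) := by
    rw [hsub, hsub', hsub', he, hf, hc]
  rw [h3, hsub, hsub, hadd, hsub, hsub', hsub', hsub', hsub', he, hf, hc, h1, h2, hu, hu']
  abel

theorem EQO_SB {G : Type} [Group G] [Finite G] {p : ℕ} {M : Ideal (integralClosure ℤ ℂ)} (hS : Setup p M)
    {L H K : Subgroup G} (hHL : H ≤ L) (hKH : K ≤ H) {η ψ : G → ℂ} (hη : η ∈ IrrOn K) (hψ : ψ ∈ IrrOn H)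
    (h : ∀ z : G → ℂ, CF H z → (∀ x, IntAt M (z x)) → InM M (cc η z - cc ψ z)) : SB M L η ψ := by
  intro z hz hi
  have h1 : IsIntegral ℤ (cc η z) := (C3 G).1 K η hη z (fun l hl x => hz.1 l (hHL (hKH hl)) x) hi
  have h2 : IsIntegral ℤ (cc ψ z) := (C3 G).1 H ψ hψ z (fun l hl x => hz.1 l (hHL hl) x) hi
  refine InM.mcong hS h1 h2 ?_
  rw [← cc_cut (H := H) (fun x hx => hη.1 x fun hx' => hx (hKH hx')) z, ← cc_cut (H := H) (fun x hx => hψ.1 x hx) z]
  refine h _ (CF_cut hHL hz.1) fun x => ?_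
  by_cases hx : x ∈ H
  · rw [cut_mem hx]
    exact IntAt.of_isIntegral hS (hi x)
  · rw [cut_not hx]
    exact IntAt.zero hS

theorem EQO (hEIN : EIN_stmt) (hBRH : BRH_stmt) (hLIF : LIF_stmt)
    (hIDM : IDM_stmt) (hNIL : NIL_stmt) (hCVF : CVF_stmt) (hCCI : CCI_stmt) :
    EQO_stmt := by
  classical
  intro p M hS G _ _ L H hHL y hy hyP φ x hx
  obtain ⟨hass, hbil, -, -, -, -, hcomm, hCF, -, -, -, hInM⟩ := hCVF G
  have hKH : Cz H y ≤ H := fun g hg => ((EQO_mem H y g).1 hg).1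
  have hBH : BC M H (BR M L φ H) := BCR hHL φ
  have hBL : BC M (Cz H y) (BR M L φ (Cz H y)) := BCR (hKH.trans hHL) φ
  have he := hEIN p M hS G H _ hBH
  have hf := hEIN p M hS G (Cz H y) _ hBL
  obtain ⟨eCF, ecc, eid, -⟩ := hIDM G H _ hBH.sub
  obtain ⟨fCF, fcc, fid, -⟩ := hIDM G (Cz H y) _ hBL.sub
  set e : G → ℂ := eS H (BR M L φ H) with hedef
  set f : G → ℂ := eS (Cz H y) (BR M L φ (Cz H y)) with hfdef
  obtain ⟨hbr, e'CF, he'⟩ := hBRH p M hS G H y hy hyP e e eCF eCF he he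
  set e' : G → ℂ := rs y e with he'def
  have heq : ∀ c ∈ Cz H y, e' c = e c := by
    intro c hc
    rw [he'def]
    unfold rs
    rw [if_pos ((EQO_mem H y c).1 hc).2]
  -- the null function u
  set u : G → ℂ := cv e' e' - e' with hudef
  have hee : CF (Cz H y) (cv e' e') := (hCF (Cz H y) e' e' e'CF e'CF).1
  have huCF : CF (Cz H y) u := (hCF (Cz H y) (cv e' e') e' hee e'CF).2.2
  have hu : ∀ c, InM M (u c) := by
    intro c
    by_cases hc : c ∈ Cz H y
    · have h1 := (hbr c hc).neg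
      rw [eid] at h1
      have h2 : u c = -(e c - cv e' e' c) := by
        rw [hudef, Pi.sub_apply, heq c hc]
        ring
      rw [h2]
      exact h1
    · rw [huCF.2 c hc]
      exact InM.zero hS
  have hzid : cv (cv (e' - f) (e' - f)) (e' - f) - (e' - f) =
      u + cv e' u - (cv f u + cv f u + cv f u) := by
    refine EQO_alg cv hass (fun a b c => (hbil a b c).1) (fun a b c => (hbil a b c).2.1)
      (fun a b c => (hbil a b c).2.2.1) (fun a b c => (hbil a b c).2.2.2) e' f u ?_ fid ?_ ?_ ?_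
    · rw [hudef]
      abel
    · exact hcomm (Cz H y) e' f e'CF fCF.2
    · exact hcomm (Cz H y) u e' huCF e'CF.2
    · exact hcomm (Cz H y) u f huCF fCF.2
  have hzCF : CF (Cz H y) (e' - f) := (hCF (Cz H y) e' f e'CF fCF).2.2
  have hzint : ∀ c, IntAt M ((e' - f) c) := fun c => (he' c).sub hS (hf c)
  have hznull : ∀ c, InM M (cv (cv (e' - f) (e' - f)) (e' - f) c - (e' - f) c) := by
    intro c
    have h1 := congrFun hzid c
    rw [Pi.sub_apply] at h1
    rw [h1, Pi.sub_apply, Pi.add_apply, Pi.add_apply, Pi.add_apply]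
    have a1 := hInM p M hS e' u he' hu c
    have a2 := hInM p M hS f u hf hu c
    exact ((hu c).add hS a1).sub hS ((a2.add hS a2).add hS a2)
  have hcc : ∀ θ ∈ IrrOn (Cz H y), InM M (cc θ (e' - f)) := by
    intro θ hθ
    obtain ⟨hcc1, -, -⟩ := hCCI G (Cz H y) θ hθ
    rw [(hcc1 1 e' f).2.1, fcc θ hθ]
    have h1 : cc θ e' = cc θ e := cc_congr_on (H := Cz H y) hθ.1 heq
    rw [h1]
    obtain ⟨ψ, hψ, hlif⟩ := hLIF p M hS G H y hy hyP θ hθ
    have h2 := hlif e eCF he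
    rw [ecc ψ hψ] at h2
    have hSB : SB M L θ ψ := EQO_SB hS hHL hKH hθ hψ hlif
    have hiff : (ψ ∈ BR M L φ H) ↔ (θ ∈ BR M L φ (Cz H y)) := by
      constructor
      · rintro ⟨_, h3⟩
        exact ⟨hθ, hSB.trans h3⟩
      · rintro ⟨_, h3⟩
        exact ⟨hψ, hSB.symm.trans h3⟩
    by_cases hB : ψ ∈ BR M L φ H
    · rw [if_pos hB] at h2
      rw [if_pos (hiff.1 hB)]
      exact h2
    · rw [if_neg hB] at h2
      rw [if_neg (fun h => hB (hiff.2 h))]
      exact h2
  have hfin := hNIL p M hS G (Cz H y) (e' - f) hzCF hzint hcc hznull x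
  rw [Pi.sub_apply, heq x hx] at hfin
  exact hfin

end Pool.Agent.FI
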